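import Pool.Agent.Work.MP_b5407d_lbm.Interface

set_option autoImplicit false

/-! Block MT: the optimal tilt exists -/

open MeasureTheory Set Filter Topology

namespace Pool.LBM

namespace MT

theorem cont_ex : Continuous (fun p : R2 × R2 => ex p.1 p.2) := by
  unfold ex dt
  fun_prop

theorem closed_HP {ι : Type} (θ : ι → R2) (h : ι → ℝ) : IsClosed (HP θ h) := by
  have : HP θ h = ⋂ i, {x : R2 | dt (θ i) x ≤ h i} := by
    ext x; simp [HP]
  rw [this]
  apply isClosed_iInter
  intro i
  apply isClosed_le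
  · unfold dt; fun_prop
  · exact continuous_const

theorem compact_HP {ι : Type} {θ : ι → R2} (hθ : Nor θ) (h : ι → ℝ) : IsCompact (HP θ h) :=
  Metric.isCompact_of_isClosed_isBounded (closed_HP θ h) (hθ.bdd h)

theorem abs_dt_le (a x : R2) (ha : dt a a = 1) : |dt a x| ≤ 2 * ‖x‖ := by
  unfold dt at ha ⊢
  have h1 : |a.1| ≤ 1 := by
    rw [abs_le]; constructor <;> nlinarith [sq_nonneg a.2, sq_nonneg (a.1 + 1), sq_nonneg (a.1 - 1)]
  have h2 : |a.2| ≤ 1 := by
    rw [abs_le]; constructor <;> nlinarith [sq_nonneg a.1, sq_nonneg (a.2 + 1), sq_nonneg (a.2 - 1)]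
  have h3 : |x.1| ≤ ‖x‖ := norm_fst_le x
  have h4 : |x.2| ≤ ‖x‖ := norm_snd_le x
  have h5 : |a.1 * x.1| ≤ ‖x‖ := by
    rw [abs_mul]
    nlinarith [abs_nonneg a.1, abs_nonneg x.1]
  have h6 : |a.2 * x.2| ≤ ‖x‖ := by
    rw [abs_mul]
    nlinarith [abs_nonneg a.2, abs_nonneg x.2]
  calc |a.1 * x.1 + a.2 * x.2| ≤ |a.1 * x.1| + |a.2 * x.2| := abs_add_le _ _
    _ ≤ 2 * ‖x‖ := by linarith

/-- a sign -/
theorem exists_sg (a : ℝ) : ∃ s : ℝ, (s = 1 ∨ s = -1) ∧ a * s = |a| := by
  rcases le_total 0 a with h | h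
  · exact ⟨1, Or.inl rfl, by rw [abs_of_nonneg h, mul_one]⟩
  · exact ⟨-1, Or.inr rfl, by rw [abs_of_nonpos h]; ring⟩

theorem coercive {K : Set R2} {r : ℝ} (hr : 0 < r) (hK : IsCompact K)
    (hb : Metric.closedBall (0 : R2) r ⊆ K) :
    ∃ c : ℝ, 0 < c ∧ ∀ l : R2, c * ‖l‖ ≤ ∫ x in K, ex l x := by
  set V : ℝ := (volume (Metric.ball (0 : R2) (r / 4))).toReal with hV
  have hVpos : 0 < V := by
    apply ENNReal.toReal_pos
    · exact (Metric.measure_ball_pos volume _ (by positivity)).ne'
    · exact measure_ball_lt_top.ne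
  refine ⟨V * (r / 4), by positivity, fun l => ?_⟩
  obtain ⟨s, hs, hs'⟩ := exists_sg l.1
  obtain ⟨t, ht, ht'⟩ := exists_sg l.2
  set p : R2 := (r / 2 * s, r / 2 * t) with hp
  have hsub : Metric.ball p (r / 4) ⊆ K := by
    refine subset_trans ?_ hb
    intro x hx
    rw [mem_closedBall_zero_iff]
    rw [mem_ball_iff_norm] at hx
    have h1 : |x.1 - r / 2 * s| < r / 4 := lt_of_le_of_lt (norm_fst_le (x - p)) hx
    have h2 : |x.2 - r / 2 * t| < r / 4 := lt_of_le_of_lt (norm_snd_le (x - p)) hx
    rw [abs_lt] at h1 h2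
    rw [Prod.norm_def]
    apply max_le
    · rw [Real.norm_eq_abs, abs_le]
      rcases hs with rfl | rfl <;> constructor <;> linarith [h1.1, h1.2]
    · rw [Real.norm_eq_abs, abs_le]
      rcases ht with rfl | rfl <;> constructor <;> linarith [h2.1, h2.2]
  have hcont : Continuous (fun x : R2 => ex l x) := by
    unfold ex dt; fun_prop
  have hint : IntegrableOn (fun x : R2 => ex l x) K := hcont.continuousOn.integrableOn_compact hK
  have hpt : ∀ x ∈ Metric.ball p (r / 4), r / 4 * ‖l‖ ≤ ex l x := by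
    intro x hx
    rw [mem_ball_iff_norm] at hx
    have h1 : |x.1 - r / 2 * s| < r / 4 := lt_of_le_of_lt (norm_fst_le (x - p)) hx
    have h2 : |x.2 - r / 2 * t| < r / 4 := lt_of_le_of_lt (norm_snd_le (x - p)) hx
    rw [abs_lt] at h1 h2
    have h3 : r / 4 * |l.1| ≤ l.1 * x.1 := by
      have h4 : r / 4 ≤ s * x.1 := by
        rcases hs with rfl | rfl <;> linarith [h1.1, h1.2]
      have h5 : l.1 * x.1 = |l.1| * (s * x.1) := by
        rw [← hs']
        rcases hs with rfl | rfl <;> ring
      rw [h5, mul_comm]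
      exact mul_le_mul_of_nonneg_left h4 (abs_nonneg _)
    have h3' : r / 4 * |l.2| ≤ l.2 * x.2 := by
      have h4 : r / 4 ≤ t * x.2 := by
        rcases ht with rfl | rfl <;> linarith [h2.1, h2.2]
      have h5 : l.2 * x.2 = |l.2| * (t * x.2) := by
        rw [← ht']
        rcases ht with rfl | rfl <;> ring
      rw [h5, mul_comm]
      exact mul_le_mul_of_nonneg_left h4 (abs_nonneg _)
    have h6 : ‖l‖ ≤ |l.1| + |l.2| := by
      rw [Prod.norm_def]
      apply max_le
      · rw [Real.norm_eq_abs]; linarith [abs_nonneg l.2]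
      · rw [Real.norm_eq_abs]; linarith [abs_nonneg l.1]
    have h7 : r / 4 * ‖l‖ ≤ dt l x := by
      unfold dt
      nlinarith
    have h8 := Real.add_one_le_exp (dt l x)
    unfold ex
    linarith
  calc V * (r / 4) * ‖l‖ = ∫ x in Metric.ball p (r / 4), r / 4 * ‖l‖ := by
        rw [setIntegral_const, smul_eq_mul, Measure.real, hV,
          Measure.addHaar_ball_center volume p (r / 4)]
        ring
    _ ≤ ∫ x in Metric.ball p (r / 4), ex l x := by
        apply setIntegral_mono_on
        · exact integrableOn_const (measure_ball_lt_top.ne)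
        · exact hint.mono_set hsub
        · exact measurableSet_ball
        · exact hpt
    _ ≤ ∫ x in K, ex l x := by
        apply setIntegral_mono_set hint
        · exact Eventually.of_forall fun x => (Real.exp_pos _).le
        · exact HasSubset.Subset.eventuallyLE hsub

theorem crit {K : Set R2} (hK : IsCompact K) (l u : R2)
    (hmin : ∀ l' : R2, ∫ x in K, ex l x ≤ ∫ x in K, ex l' x) :
    ∫ x in K, dt u x * ex l x = 0 := by
  obtain ⟨R, hR0, hR⟩ : ∃ R : ℝ, 0 < R ∧ ∀ x ∈ K, |dt u x| ≤ R := by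
    have hc : Continuous (fun x : R2 => dt u x) := by unfold dt; fun_prop
    obtain ⟨C, hC⟩ := hK.exists_bound_of_continuousOn hc.continuousOn
    exact ⟨max C 1, by positivity, fun x hx => le_trans (hC x hx) (le_max_left _ _)⟩
  have hcont : Continuous (fun x : R2 => ex l x) := by unfold ex dt; fun_prop
  have hcont2 : Continuous (fun x : R2 => dt u x * ex l x) := by unfold ex dt; fun_prop
  have hi1 : IntegrableOn (fun x : R2 => ex l x) K := hcont.continuousOn.integrableOn_compact hK
  have hi2 : IntegrableOn (fun x : R2 => dt u x * ex l x) K :=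
    hcont2.continuousOn.integrableOn_compact hK
  set A := ∫ x in K, dt u x * ex l x with hA
  set F := ∫ x in K, ex l x with hF
  have hF0 : 0 ≤ F := setIntegral_nonneg_of_ae (Eventually.of_forall fun x => (Real.exp_pos _).le)
  have key : ∀ s : ℝ, |s| * R ≤ 1 → 0 ≤ s * A + s ^ 2 * (R ^ 2 * F) := by
    intro s hs
    have h1 := hmin (l + s • u)
    have hcont3 : Continuous (fun x : R2 => ex (l + s • u) x) := by unfold ex dt; fun_prop
    have hi3 : IntegrableOn (fun x : R2 => ex (l + s • u) x) K :=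
      hcont3.continuousOn.integrableOn_compact hK
    have h2 : ∫ x in K, ex (l + s • u) x ≤
        ∫ x in K, (ex l x + s * (dt u x * ex l x) + s ^ 2 * R ^ 2 * ex l x) := by
      apply setIntegral_mono_on hi3 ((hi1.add (hi2.const_mul s)).add (hi1.const_mul _))
        hK.measurableSet
      intro x hx
      have h3 : ex (l + s • u) x = ex l x * Real.exp (s * dt u x) := by
        unfold ex
        rw [← Real.exp_add]
        congr 1
        unfold dt
        simp only [Prod.fst_add, Prod.snd_add, Prod.smul_fst, Prod.smul_snd, smul_eq_mul]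
        ring
      have h4 : |s * dt u x| ≤ 1 := by
        rw [abs_mul]
        exact le_trans (mul_le_mul_of_nonneg_left (hR x hx) (abs_nonneg s)) hs
      have h5 := Real.abs_exp_sub_one_sub_id_le h4
      have h6 := (abs_le.1 h5).2
      have h7 : (s * dt u x) ^ 2 ≤ s ^ 2 * R ^ 2 := by
        rw [mul_pow]
        apply mul_le_mul_of_nonneg_left _ (sq_nonneg s)
        rw [← sq_abs (dt u x)]
        exact pow_le_pow_left₀ (abs_nonneg _) (hR x hx) 2
      have h8 : 0 < ex l x := Real.exp_pos _
      rw [h3]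
      have h9 : Real.exp (s * dt u x) ≤ 1 + s * dt u x + s ^ 2 * R ^ 2 := by linarith
      calc ex l x * Real.exp (s * dt u x) ≤ ex l x * (1 + s * dt u x + s ^ 2 * R ^ 2) :=
            mul_le_mul_of_nonneg_left h9 h8.le
        _ = ex l x + s * (dt u x * ex l x) + s ^ 2 * R ^ 2 * ex l x := by ring
    have hi12 : IntegrableOn (fun x : R2 => ex l x + s * (dt u x * ex l x)) K :=
      hi1.add (hi2.const_mul s)
    have hi13 : IntegrableOn (fun x : R2 => s * (dt u x * ex l x)) K := hi2.const_mul s
    have hi14 : IntegrableOn (fun x : R2 => s ^ 2 * R ^ 2 * ex l x) K := hi1.const_mul _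
    rw [integral_add hi12 hi14, integral_add hi1 hi13, integral_const_mul,
      integral_const_mul] at h2
    have h10 : s ^ 2 * (R ^ 2 * F) = s ^ 2 * R ^ 2 * F := by ring
    rw [h10]
    linarith
  by_contra hne
  set B := R ^ 2 * F with hB
  have hB0 : 0 ≤ B := by positivity
  -- choose `s = - sign A * small`
  set δ : ℝ := min (1 / R) (|A| / (2 * (B + 1))) with hδ
  have hApos : 0 < |A| := abs_pos.2 hne
  have hδpos : 0 < δ := lt_min (by positivity) (by positivity)
  have h1 : δ * R ≤ 1 := by
    have : δ ≤ 1 / R := min_le_left _ _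
    calc δ * R ≤ 1 / R * R := mul_le_mul_of_nonneg_right this hR0.le
      _ = 1 := by field_simp
  have h2 : δ * (2 * (B + 1)) ≤ |A| := by
    have : δ ≤ |A| / (2 * (B + 1)) := min_le_right _ _
    rwa [le_div_iff₀ (by positivity)] at this
  rcases lt_or_gt_of_ne hne with h3 | h3
  · have h4 := key δ (by rw [abs_of_pos hδpos]; exact h1)
    rw [abs_of_neg h3] at h2
    nlinarith
  · have h4 := key (-δ) (by rw [abs_neg, abs_of_pos hδpos]; exact h1)
    rw [abs_of_pos h3] at h2
    nlinarith

end MT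

theorem blk_MT : Stmt_MT := by
  intro ι _ θ h hθ hh
  have hK := MT.compact_HP hθ h
  obtain ⟨r, hr, hr'⟩ : ∃ r : ℝ, 0 < r ∧ ∀ i, 2 * r ≤ h i := by
    rcases isEmpty_or_nonempty ι with he | hne
    · exact ⟨1, one_pos, fun i => he.elim i⟩
    · obtain ⟨i0, hi0⟩ := Finite.exists_min h
      exact ⟨h i0 / 2, half_pos (hh i0), fun i => by have := hi0 i; linarith⟩
  have hb : Metric.closedBall (0 : R2) r ⊆ HP θ h := by
    intro x hx i
    rw [mem_closedBall_zero_iff] at hx
    have h1 := MT.abs_dt_le (θ i) x (hθ.unit i)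
    have h2 := (abs_le.1 h1).2
    have h3 := hr' i
    linarith
  obtain ⟨c, hc, hcoer⟩ := MT.coercive hr hK hb
  have hcont : Continuous (fun l : R2 => ∫ x in HP θ h, ex l x) := by
    have := continuous_parametric_integral_of_continuous (μ := (volume : Measure R2))
      (f := fun l x : R2 => ex l x) (s := HP θ h) MT.cont_ex hK
    exact this
  have htend : Tendsto (fun l : R2 => ∫ x in HP θ h, ex l x) (cocompact R2) atTop := by
    apply tendsto_atTop_mono hcoer
    exact (tendsto_norm_cocompact_atTop (E := R2)).const_mul_atTop hc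
  obtain ⟨l, hl⟩ := hcont.exists_forall_le htend
  refine ⟨l, hl, ?_, ?_⟩
  · have := MT.crit hK l (1, 0) hl
    rw [← this]
    refine integral_congr_ae (Eventually.of_forall fun x => ?_)
    simp [dt]
  · have := MT.crit hK l (0, 1) hl
    rw [← this]
    refine integral_congr_ae (Eventually.of_forall fun x => ?_)
    simp [dt]

end Pool.LBM
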