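import Pool.Agent.Work.MP_b5407d_lbm.Interface

set_option autoImplicit false

/-! Block NR: the normals of the regular `N`-gon are admissible -/

open MeasureTheory Set Filter Topology

namespace Pool.LBM

namespace NR

theorem unit (N : ℕ) (i : Fin N) : dt (nrm N i) (nrm N i) = 1 := by
  unfold dt nrm
  have := Real.cos_sq_add_sin_sq (2 * Real.pi * (i : ℕ) / N)
  simp only
  nlinarith

theorem dt_eq (N : ℕ) (i k : Fin N) :
    dt (nrm N i) (nrm N k) = Real.cos (2 * Real.pi * (i : ℕ) / N - 2 * Real.pi * (k : ℕ) / N) := by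
  unfold dt nrm
  rw [Real.cos_sub]

theorem sum_zero (N : ℕ) (hN : 3 ≤ N) : ∑ i : Fin N, nrm N i = 0 := by
  have hN0 : N ≠ 0 := by omega
  have h := (Complex.isPrimitiveRoot_exp N hN0).geom_sum_eq_zero (by omega)
  have hterm : ∀ i : ℕ, Complex.exp (2 * Real.pi * Complex.I / N) ^ i =
      Complex.exp (((2 * Real.pi * (i : ℕ) / N : ℝ) : ℂ) * Complex.I) := by
    intro i
    rw [← Complex.exp_nat_mul]
    congr 1
    push_cast
    ring
  have h1 : ∑ i ∈ Finset.range N, Real.cos (2 * Real.pi * (i : ℕ) / N) = 0 := by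
    have h2 := congrArg Complex.re h
    rw [Complex.re_sum, Complex.zero_re] at h2
    rw [← h2]
    refine Finset.sum_congr rfl fun i _ => ?_
    rw [hterm i, Complex.exp_ofReal_mul_I_re]
  have h3 : ∑ i ∈ Finset.range N, Real.sin (2 * Real.pi * (i : ℕ) / N) = 0 := by
    have h2 := congrArg Complex.im h
    rw [Complex.im_sum, Complex.zero_im] at h2
    rw [← h2]
    refine Finset.sum_congr rfl fun i _ => ?_
    rw [hterm i, Complex.exp_ofReal_mul_I_im]
  ext
  · rw [Prod.fst_sum, Prod.fst_zero]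
    show ∑ i : Fin N, Real.cos (2 * Real.pi * (i : ℕ) / N) = 0
    rw [Fin.sum_univ_eq_sum_range (fun i => Real.cos (2 * Real.pi * (i : ℕ) / N)) N]
    exact h1
  · rw [Prod.snd_sum, Prod.snd_zero]
    show ∑ i : Fin N, Real.sin (2 * Real.pi * (i : ℕ) / N) = 0
    rw [Fin.sum_univ_eq_sum_range (fun i => Real.sin (2 * Real.pi * (i : ℕ) / N)) N]
    exact h3

theorem bdd (N : ℕ) (hN : 3 ≤ N) (h : Fin N → ℝ) : Bornology.IsBounded (HP (nrm N) h) := by
  have hNR : (3 : ℝ) ≤ N := by exact_mod_cast hN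
  -- a common bound
  obtain ⟨H, hH0, hH⟩ : ∃ H : ℝ, 0 ≤ H ∧ ∀ i, h i ≤ H := by
    refine ⟨∑ i, |h i|, Finset.sum_nonneg fun i _ => abs_nonneg _, fun i => ?_⟩
    exact le_trans (le_abs_self _)
      (Finset.single_le_sum (f := fun i => |h i|) (fun i _ => abs_nonneg _) (Finset.mem_univ i))
  have hdt : ∀ x ∈ HP (nrm N) h, ∀ i, |dt (nrm N i) x| ≤ N * H := by
    intro x hx i
    have h1 : ∀ j, dt (nrm N j) x ≤ H := fun j => le_trans (hx j) (hH j)
    have h2 : ∑ j, dt (nrm N j) x = 0 := by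
      have h3 : ∑ j, dt (nrm N j) x = dt (∑ j, nrm N j) x := by
        unfold dt
        rw [Prod.fst_sum, Prod.snd_sum, Finset.sum_add_distrib, Finset.sum_mul, Finset.sum_mul]
      rw [h3, sum_zero N hN]
      simp [dt]
    have h4 : H - dt (nrm N i) x ≤ ∑ j, (H - dt (nrm N j) x) :=
      Finset.single_le_sum (f := fun j => H - dt (nrm N j) x)
        (fun j _ => by have := h1 j; show 0 ≤ H - dt (nrm N j) x; linarith) (Finset.mem_univ i)
    have h5 : ∑ j, (H - dt (nrm N j) x) = N * H := by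
      rw [Finset.sum_sub_distrib, h2]
      simp
    rw [abs_le]
    have h6 := h1 i
    constructor
    · linarith
    · nlinarith
  have hs : 0 < Real.sin (2 * Real.pi / N) := by
    apply Real.sin_pos_of_pos_of_lt_pi
    · have := Real.pi_pos; positivity
    · rw [div_lt_iff₀ (by linarith)]
      have := Real.pi_pos
      nlinarith
  rw [isBounded_iff_forall_norm_le]
  refine ⟨max (N * H) (2 * (N * H) / Real.sin (2 * Real.pi / N)), fun x hx => ?_⟩
  have h0 := hdt x hx ⟨0, by omega⟩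
  have h1 := hdt x hx ⟨1, by omega⟩
  have h0' : |x.1| ≤ N * H := by
    have : dt (nrm N ⟨0, by omega⟩) x = x.1 := by
      simp [dt, nrm]
    rwa [this] at h0
  have h1' : |Real.cos (2 * Real.pi / N) * x.1 + Real.sin (2 * Real.pi / N) * x.2| ≤ N * H := by
    have : dt (nrm N ⟨1, by omega⟩) x =
        Real.cos (2 * Real.pi / N) * x.1 + Real.sin (2 * Real.pi / N) * x.2 := by
      simp [dt, nrm]
    rwa [this] at h1
  have h2 : Real.sin (2 * Real.pi / N) * |x.2| ≤ 2 * (N * H) := by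
    have h3 : |Real.cos (2 * Real.pi / N) * x.1| ≤ N * H := by
      rw [abs_mul]
      calc |Real.cos (2 * Real.pi / N)| * |x.1| ≤ 1 * |x.1| :=
            mul_le_mul_of_nonneg_right (Real.abs_cos_le_one _) (abs_nonneg _)
        _ = |x.1| := one_mul _
        _ ≤ N * H := h0'
    have h4 : |Real.sin (2 * Real.pi / N) * x.2| ≤ 2 * (N * H) := by
      rw [abs_le] at *
      constructor <;> linarith [h1'.1, h1'.2, h3.1, h3.2]
    rwa [abs_mul, abs_of_pos hs] at h4
  rw [Prod.norm_def]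
  apply max_le
  · exact le_trans h0' (le_max_left _ _)
  · refine le_trans ?_ (le_max_right _ _)
    rw [le_div_iff₀ hs]
    calc ‖x.2‖ * Real.sin (2 * Real.pi / N) = Real.sin (2 * Real.pi / N) * |x.2| := by
          rw [Real.norm_eq_abs, mul_comm]
      _ ≤ 2 * (N * H) := h2

end NR

theorem blk_NR : Stmt_NR := by
  intro N hN
  have hNR : (0 : ℝ) < N := by exact_mod_cast (by omega : 0 < N)
  have hpi := Real.pi_pos
  refine ⟨⟨NR.unit N, ?_, NR.bdd N hN⟩, ?_⟩
  · intro i k hik
    have h1 : dt (nrm N i) (nrm N k) = 1 := by rw [hik]; exact NR.unit N k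
    rw [NR.dt_eq, Real.cos_eq_one_iff] at h1
    obtain ⟨n, hn⟩ := h1
    have h2 : (n : ℝ) * N = (i : ℕ) - (k : ℕ) := by
      field_simp at hn
      nlinarith
    have h3 : (n : ℤ) * N = ((i : ℕ) : ℤ) - ((k : ℕ) : ℤ) := by exact_mod_cast h2
    have hi := i.2
    have hk := k.2
    have h4 : n = 0 := by
      by_contra hne
      rcases lt_or_gt_of_ne hne with h5 | h5
      · have : n * N ≤ -1 * N := by
          apply mul_le_mul_of_nonneg_right (by omega) (by positivity)
        omega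
      · have : 1 * (N : ℤ) ≤ n * N := by
          apply mul_le_mul_of_nonneg_right (by omega) (by positivity)
        omega
    rw [h4] at h3
    apply Fin.ext
    omega
  · intro hodd i k hik
    have h1 : dt (nrm N i) (nrm N k) = -1 := by
      rw [hik]
      have := NR.unit N k
      unfold dt at this ⊢
      simp only [Prod.fst_neg, Prod.snd_neg]
      linarith
    rw [NR.dt_eq] at h1
    have h1' : Real.cos (2 * Real.pi * (i : ℕ) / N - 2 * Real.pi * (k : ℕ) / N + Real.pi) = 1 := by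
      rw [Real.cos_add_pi, h1]; norm_num
    rw [Real.cos_eq_one_iff] at h1'
    obtain ⟨n, hn⟩ := h1'
    have h2 : (N : ℝ) * (2 * n - 1) = 2 * ((i : ℕ) - (k : ℕ)) := by
      field_simp at hn
      nlinarith
    have h3 : (N : ℤ) * (2 * n - 1) = 2 * (((i : ℕ) : ℤ) - ((k : ℕ) : ℤ)) := by exact_mod_cast h2
    obtain ⟨d, hd⟩ := hodd
    have h4 : ((2 * d + 1 : ℕ) : ℤ) * (2 * n - 1) = 2 * (((i : ℕ) : ℤ) - ((k : ℕ) : ℤ)) := by
      rw [← hd]; exact h3
    push_cast at h4
    have h5 : (2 * (d : ℤ) + 1) * (2 * n - 1) = 2 * (2 * d * n - d + n) - 1 := by ring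
    rw [h5] at h4
    omega

end Pool.LBM
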